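import Pool.Agent.Helper88.AdT.Final
import Pool.Agent.Helper88.AdT.Gos

/-!
# MP_e447a9_gt, Q1: full negative answer

There is a closed anti-de Sitter 3-manifold with tachyons along a link, whose link complement is
(homotopically) atoroidal, all tachyons having the same mass `m ≠ 0`, and which has a continuous
one-parameter family of pairwise non-isometric anti-de Sitter structures with tachyons of the same
mass along the same link.  So the anti-de Sitter geometry is not rigid relative to the masses.

Construction (Foulon-Hasselblatt, Birkhoff-Fried and Goldman type surgery made explicit).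
`Gam` is a cocompact lattice in `SL(2,ℝ)` coming from the form `b² + d² - 3 c²`, `Lines` an
invariant filling set of geodesics, `E` the set of frames not tangent to a line.  Two circle
valued functions `Th κ` on `M = Gam \ E` count, with a cut-off, the lines crossing the geodesic of
the frame.  The maps `x ↦ x * a (...)` and conjugations by the corresponding cocycles with values
in the boosts give developing maps of new anti-de Sitter structures on `M`; the ends of `M` are
filled by solid tori, and the cores of these are tachyons of constant mass.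
-/

open Matrix Real Topology Filter Set AdT

/-- Full negative answer: a closed anti-de Sitter 3-manifold with tachyons along a link, with
atoroidal link complement, which is flexible relative to the tachyon masses. -/
theorem Pool.Agent.Results.MP_e447a9_gt.FlexibleTachyons.result :
    ∃ (N : Type) (_ : TopologicalSpace N) (S : Set N) (m δ : ℝ) (𝒜 : ℝ → AdSStr N S),
      IsClosedThreeManifold N ∧ IsLink S ∧ AtoroidalCompl S ∧ m ≠ 0 ∧ 0 < δ ∧
      (∀ q ∉ S, ∃ (U : Set N) (c : ℝ → OpenPartialHomeomorph N SL), IsOpen U ∧ q ∈ U ∧
        (∀ t ∈ Ioo (-δ) δ, c t ∈ (𝒜 t).charts ∧ (c t).source = U) ∧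
        ContinuousOn (fun p : ℝ × N => c p.1 p.2) (Ioo (-δ) δ ×ˢ U)) ∧
      (∀ q ∈ S, ∃ (U : Set N) (κ : ℝ → OpenPartialHomeomorph N (ℂ × ℝ)), IsOpen U ∧ q ∈ U ∧
        (∀ t ∈ Ioo (-δ) δ, IsTachyonChart (𝒜 t).charts S m (κ t) ∧ (κ t).source = U) ∧
        ContinuousOn (fun p : ℝ × N => κ p.1 p.2) (Ioo (-δ) δ ×ˢ U)) ∧
      ∀ t t' : ℝ, 0 ≤ t → t < t' → t' < δ →
        ¬ ∃ h : N ≃ₜ N, h '' S = S ∧ Compat (𝒜 t).charts (𝒜 t').charts h :=
  AdT.final_of_gos AdT.gos
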